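import Pool.Agent.X141.K4.Edges

/-! Few classes: the final forms. -/

set_option autoImplicit false
open Finset
open scoped Classical

namespace Pool.Agent.X141.K4

section
variable {V : Type} [Fintype V]

theorem strong_cast {k : ℕ} (hk : k ≤ 38) {H : Finset (Finset V)} {c : V → Fin k}
    (hc : Strong H c) : Strong H (fun v => Fin.castLE hk (c v)) := by
  intro e he x hx y hy hxy
  refine hc e he x hx y hy ?_
  have := congrArg Fin.val hxy
  exact Fin.ext (by simpa using this)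

theorem finalW (hB : Bd) {H : Finset (Finset V)} (h3 : ∀ e ∈ H, e.card = 3) (hF : Free H)
    {k : ℕ} (hk : k ≤ 38) (c : V → Fin k) (hc : Strong H c) (w : V → ℝ) (hw : ∀ v, 0 ≤ w v) :
    54 * ∑ e ∈ H, ∏ v ∈ e, w v ≤ 5 * (∑ v, w v) ^ 3 := by
  have := classes38 hB h3 hF _ (strong_cast hk hc) w hw
  linarith

theorem finalC (hB : Bd) {H : Finset (Finset V)} (h3 : ∀ e ∈ H, e.card = 3) (hF : Free H)
    {k : ℕ} (hk : k ≤ 38) (c : V → Fin k) (hc : Strong H c) :
    54 * H.card ≤ 5 * Fintype.card V ^ 3 := by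
  have h := finalW hB h3 hF hk c hc (fun _ => 1) (fun _ => zero_le_one)
  simp only [prod_const_one, sum_const, nsmul_eq_mul, mul_one, card_univ] at h
  exact_mod_cast h

theorem finalL (hB : Bd) {H : Finset (Finset V)} (h3 : ∀ e ∈ H, e.card = 3) (hF : Free H)
    (hV : Fintype.card V ≤ 38) (w : V → ℝ) (hw : ∀ v, 0 ≤ w v) :
    54 * ∑ e ∈ H, ∏ v ∈ e, w v ≤ 5 * (∑ v, w v) ^ 3 := by
  refine finalW hB h3 hF hV (Fintype.equivFin V) ?_ w hw
  intro e _ x _ y _ hxy
  exact (Fintype.equivFin V).injective hxy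

end
end Pool.Agent.X141.K4
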