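import Pool.Agent.X141.K4.W

/-! Augmentations of `K_4^3`-free relations: a reserved set of vertices. -/

set_option autoImplicit false
open Finset Filter
open scoped Classical Topology

namespace Pool.Agent.X141.K4

/-- Turán's pattern on three types -/
def pat (s t u : Fin 3) : Prop :=
  (s ≠ t ∧ s ≠ u ∧ t ≠ u) ∨ (s = t ∧ u = s + 1) ∨ (s = u ∧ t = s + 1) ∨ (t = u ∧ s = t + 1)

instance (s t u : Fin 3) : Decidable (pat s t u) := by unfold pat; infer_instance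

theorem pat_good : Good pat := by
  constructor
  · decide
  · decide
  · decide

theorem pat_count : ∑ s : Fin 3, ∑ t : Fin 3, ∑ u : Fin 3, (if pat s t u then (1 : ℝ) else 0) = 15 := by
  have h : ∑ s : Fin 3, ∑ t : Fin 3, ∑ u : Fin 3, (if pat s t u then (1 : ℕ) else 0) = 15 := by
    decide
  have h' : ((∑ s : Fin 3, ∑ t : Fin 3, ∑ u : Fin 3, (if pat s t u then (1 : ℕ) else 0) : ℕ) : ℝ)
      = 15 := by rw [h]; norm_num
  push_cast at h'
  exact h'

section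
variable {V : Type}

/-- no third vertex makes a member with `x`, `y` -/
def Unc (R : V → V → V → Prop) (x y : V) : Prop := ∀ z, ¬ R x y z

theorem unc_symm {R : V → V → V → Prop} (hR : Good R) {x y : V} (h : Unc R x y) : Unc R y x :=
  fun z hz => h z (hR.s1 _ _ _ hz)

/-- the first augmentation -/
def aug (R : V → V → V → Prop) (S : V → Prop) (a b c : V × Fin 3) : Prop :=
  (¬ (S a.1 ∧ S b.1) ∧ ¬ (S a.1 ∧ S c.1) ∧ ¬ (S b.1 ∧ S c.1) ∧ R a.1 b.1 c.1) ∨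
  (S a.1 ∧ ¬ S b.1 ∧ ¬ S c.1 ∧ Unc R b.1 c.1) ∨
  (¬ S a.1 ∧ S b.1 ∧ ¬ S c.1 ∧ Unc R a.1 c.1) ∨
  (¬ S a.1 ∧ ¬ S b.1 ∧ S c.1 ∧ Unc R a.1 b.1) ∨
  (S a.1 ∧ S b.1 ∧ S c.1 ∧ pat a.2 b.2 c.2)

theorem aug_good {R : V → V → V → Prop} (hR : Good R) (S : V → Prop) : Good (aug R S) := by
  constructor
  · rintro a b c (⟨h1, h2, h3, h4⟩ | ⟨h1, h2, h3, h4⟩ | ⟨h1, h2, h3, h4⟩ | ⟨h1, h2, h3, h4⟩ |
      ⟨h1, h2, h3, h4⟩)
    · exact Or.inl ⟨fun h => h1 ⟨h.2, h.1⟩, h3, h2, hR.s1 _ _ _ h4⟩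
    · exact Or.inr (Or.inr (Or.inl ⟨h2, h1, h3, h4⟩))
    · exact Or.inr (Or.inl ⟨h2, h1, h3, h4⟩)
    · exact Or.inr (Or.inr (Or.inr (Or.inl ⟨h2, h1, h3, unc_symm hR h4⟩)))
    · exact Or.inr (Or.inr (Or.inr (Or.inr ⟨h2, h1, h3, pat_good.s1 _ _ _ h4⟩)))
  · rintro a b c (⟨h1, h2, h3, h4⟩ | ⟨h1, h2, h3, h4⟩ | ⟨h1, h2, h3, h4⟩ | ⟨h1, h2, h3, h4⟩ |
      ⟨h1, h2, h3, h4⟩)
    · exact Or.inl ⟨h2, h1, fun h => h3 ⟨h.2, h.1⟩, hR.s2 _ _ _ h4⟩
    · exact Or.inr (Or.inl ⟨h1, h3, h2, unc_symm hR h4⟩)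
    · exact Or.inr (Or.inr (Or.inr (Or.inl ⟨h1, h3, h2, h4⟩)))
    · exact Or.inr (Or.inr (Or.inl ⟨h1, h3, h2, h4⟩))
    · exact Or.inr (Or.inr (Or.inr (Or.inr ⟨h1, h3, h2, pat_good.s2 _ _ _ h4⟩)))
  · intro a b c d h1 h2 h3 h4
    unfold aug at h1 h2 h3 h4
    by_cases ha : S a.1 <;> by_cases hb : S b.1 <;> by_cases hc : S c.1 <;> by_cases hd : S d.1 <;>
      simp only [ha, hb, hc, hd, not_true_eq_false, not_false_eq_true, true_and, and_true,
        false_and, and_false, or_false, false_or, and_self] at h1 h2 h3 h4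
    · exact pat_good.k4 _ _ _ _ h1 h2 h3 h4
    · exact hR.k4 _ _ _ _ (h1.resolve_right fun u => u _ h4)
        (h2.resolve_right fun u => u _ (hR.s2 _ _ _ h4))
        (h3.resolve_right fun u => u _ (hR.s2 _ _ _ (hR.s1 _ _ _ h4))) h4
    · exact hR.k4 _ _ _ _ (h1.resolve_right fun u => u _ h3)
        (h2.resolve_right fun u => u _ (hR.s2 _ _ _ h3)) h3
        (h4.resolve_right fun u => u _ (hR.s2 _ _ _ (hR.s1 _ _ _ h3)))
    · exact hR.k4 _ _ _ _ (h1.resolve_right fun u => u _ h2) h2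
        (h3.resolve_right fun u => u _ (hR.s2 _ _ _ h2))
        (h4.resolve_right fun u => u _ (hR.s2 _ _ _ (hR.s1 _ _ _ h2)))
    · exact hR.k4 _ _ _ _ h1 (h2.resolve_right fun u => u _ h1)
        (h3.resolve_right fun u => u _ (hR.s2 _ _ _ h1))
        (h4.resolve_right fun u => u _ (hR.s2 _ _ _ (hR.s1 _ _ _ h1)))
    · exact hR.k4 _ _ _ _ h1 h2 h3 h4
end

section
variable {V : Type} [Fintype V]

theorem sum27 (f : V → V → V → ℝ) :
    ∑ a : V × Fin 3, ∑ b : V × Fin 3, ∑ c : V × Fin 3, f a.1 b.1 c.1 =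
      27 * ∑ a, ∑ b, ∑ c, f a b c := by
  have h : ∀ g : V → ℝ, ∑ a : V × Fin 3, g a.1 = 3 * ∑ a, g a := by
    intro g
    rw [Fintype.sum_prod_type, mul_sum]
    refine sum_congr rfl fun v _ => ?_
    simp
  rw [h (fun a => ∑ b : V × Fin 3, ∑ c : V × Fin 3, f a b.1 c.1)]
  have h2 : ∀ a, ∑ b : V × Fin 3, ∑ c : V × Fin 3, f a b.1 c.1 = 9 * ∑ b, ∑ c, f a b c := by
    intro a
    rw [h (fun b => ∑ c : V × Fin 3, f a b c.1)]
    have h3 : ∀ b, ∑ c : V × Fin 3, f a b c.1 = 3 * ∑ c, f a b c := fun b => h (fun c => f a b c)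
    simp only [h3]
    rw [← mul_sum]
    ring
  simp only [h2]
  rw [← mul_sum]
  ring

/-- the pattern part of the sum -/
theorem sum_pat (S : V → Prop) (w : V → ℝ) :
    ∑ a : V × Fin 3, ∑ b : V × Fin 3, ∑ c : V × Fin 3,
      (if (S a.1 ∧ S b.1 ∧ S c.1 ∧ pat a.2 b.2 c.2) then w a.1 * w b.1 * w c.1 else 0) =
      15 * (∑ v, if S v then w v else 0) ^ 3 := by
  have key : ∀ a b c : V × Fin 3,
      (if (S a.1 ∧ S b.1 ∧ S c.1 ∧ pat a.2 b.2 c.2) then w a.1 * w b.1 * w c.1 else 0) =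
      (if S a.1 then w a.1 else 0) * (if S b.1 then w b.1 else 0) * (if S c.1 then w c.1 else 0) *
        (if pat a.2 b.2 c.2 then (1 : ℝ) else 0) := by
    intro a b c
    by_cases ha : S a.1 <;> by_cases hb : S b.1 <;> by_cases hc : S c.1 <;>
      by_cases hp : pat a.2 b.2 c.2 <;> simp [ha, hb, hc, hp]
  simp only [key]
  set u : V → ℝ := fun v => if S v then w v else 0 with hu
  have e : ∑ a : V × Fin 3, ∑ b : V × Fin 3, ∑ c : V × Fin 3,
      u a.1 * u b.1 * u c.1 * (if pat a.2 b.2 c.2 then (1 : ℝ) else 0) =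
      ∑ a, ∑ b, ∑ c, u a * u b * u c * 15 := by
    have h1 : ∀ (x y : V) (s t : Fin 3), ∑ c : V × Fin 3,
        u x * u y * u c.1 * (if pat s t c.2 then (1 : ℝ) else 0) =
        ∑ c, u x * u y * u c * ∑ r, (if pat s t r then (1 : ℝ) else 0) := by
      intro x y s t
      rw [Fintype.sum_prod_type]
      exact sum_congr rfl fun c _ => by rw [mul_sum]
    have h2 : ∀ (x : V) (s : Fin 3), ∑ b : V × Fin 3, ∑ c,
        u x * u b.1 * u c * ∑ r, (if pat s b.2 r then (1 : ℝ) else 0) =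
        ∑ b, ∑ c, u x * u b * u c * ∑ t, ∑ r, (if pat s t r then (1 : ℝ) else 0) := by
      intro x s
      rw [Fintype.sum_prod_type]
      refine sum_congr rfl fun b _ => ?_
      rw [sum_comm]
      exact sum_congr rfl fun c _ => by rw [mul_sum]
    rw [Fintype.sum_prod_type]
    refine sum_congr rfl fun a _ => ?_
    have h3 : ∀ s : Fin 3, ∑ b : V × Fin 3, ∑ c : V × Fin 3,
        u a * u b.1 * u c.1 * (if pat s b.2 c.2 then (1 : ℝ) else 0) =
        ∑ b, ∑ c, u a * u b * u c * ∑ t, ∑ r, (if pat s t r then (1 : ℝ) else 0) := by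
      intro s
      rw [← h2 a s]
      exact sum_congr rfl fun b _ => h1 a b.1 s b.2
    simp only [h3]
    rw [sum_comm]
    refine sum_congr rfl fun b _ => ?_
    rw [sum_comm]
    refine sum_congr rfl fun c _ => ?_
    rw [← mul_sum, pat_count]
  rw [e]
  have e2 : ∑ a, ∑ b, ∑ c, u a * u b * u c * 15 = 15 * (∑ v, u v) ^ 3 := by
    have : ∀ a b, ∑ c, u a * u b * u c * 15 = u a * u b * 15 * ∑ c, u c := by
      intro a b
      rw [mul_sum]
      exact sum_congr rfl fun c _ => by ring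
    simp only [this]
    have : ∀ a, ∑ b, u a * u b * 15 * ∑ c, u c = u a * 15 * (∑ c, u c) * ∑ b, u b := by
      intro a
      rw [mul_sum]
      exact sum_congr rfl fun c _ => by ring
    simp only [this]
    rw [← sum_mul, ← sum_mul, ← sum_mul]
    ring
  exact e2

/-- the part of the sum with the uncovered pairs -/
theorem sum_unc (P : V → V → Prop) (S : V → Prop) (w : V → ℝ) :
    ∑ a, ∑ b, ∑ c, (if (S a ∧ ¬ S b ∧ ¬ S c ∧ P b c) then w a * w b * w c else 0) =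
      (∑ v, if S v then w v else 0) *
        ∑ b, ∑ c, (if (¬ S b ∧ ¬ S c ∧ P b c) then w b * w c else 0) := by
  rw [sum_mul]
  refine sum_congr rfl fun a _ => ?_
  rw [mul_sum]
  refine sum_congr rfl fun b _ => ?_
  rw [mul_sum]
  refine sum_congr rfl fun c _ => ?_
  by_cases ha : S a
  · simp only [ha, true_and, if_true]
    split_ifs <;> ring
  · simp [ha]

/-- **A reserved set.** -/
theorem reserve (hB : Bd) {R : V → V → V → Prop} (hR : Good R) (S : V → Prop)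
    (w : V → ℝ) (hw : ∀ v, 0 ≤ w v) :
    ∑ a, ∑ b, ∑ c, (if (¬ (S a ∧ S b) ∧ ¬ (S a ∧ S c) ∧ ¬ (S b ∧ S c) ∧ R a b c) then
        w a * w b * w c else 0) +
      3 * (∑ v, if S v then w v else 0) *
        ∑ b, ∑ c, (if (¬ S b ∧ ¬ S c ∧ Unc R b c) then w b * w c else 0) +
      5 / 9 * (∑ v, if S v then w v else 0) ^ 3 ≤ 0.55756 * (∑ v, w v) ^ 3 := by
  have h := bd_real hB (aug_good hR S) (fun a : V × Fin 3 => w a.1) (fun a => hw a.1)
  have hW : ∑ a : V × Fin 3, w a.1 = 3 * ∑ v, w v := by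
    rw [Fintype.sum_prod_type, mul_sum]
    refine sum_congr rfl fun v _ => ?_
    simp
  rw [hW] at h
  have hsplit : ∀ a b c : V × Fin 3,
      (if aug R S a b c then w a.1 * w b.1 * w c.1 else 0) =
      (if (¬ (S a.1 ∧ S b.1) ∧ ¬ (S a.1 ∧ S c.1) ∧ ¬ (S b.1 ∧ S c.1) ∧ R a.1 b.1 c.1) then
        w a.1 * w b.1 * w c.1 else 0) +
      (if (S a.1 ∧ ¬ S b.1 ∧ ¬ S c.1 ∧ Unc R b.1 c.1) then w a.1 * w b.1 * w c.1 else 0) +
      (if (S b.1 ∧ ¬ S a.1 ∧ ¬ S c.1 ∧ Unc R a.1 c.1) then w b.1 * w a.1 * w c.1 else 0) +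
      (if (S c.1 ∧ ¬ S a.1 ∧ ¬ S b.1 ∧ Unc R a.1 b.1) then w c.1 * w a.1 * w b.1 else 0) +
      (if (S a.1 ∧ S b.1 ∧ S c.1 ∧ pat a.2 b.2 c.2) then w a.1 * w b.1 * w c.1 else 0) := by
    intro a b c
    have hd1 : R a.1 b.1 c.1 → ¬ Unc R b.1 c.1 := fun h1 h2 =>
      h2 a.1 (hR.s2 _ _ _ (hR.s1 _ _ _ h1))
    have hd2 : R a.1 b.1 c.1 → ¬ Unc R a.1 c.1 := fun h1 h2 => h2 b.1 (hR.s2 _ _ _ h1)
    have hd3 : R a.1 b.1 c.1 → ¬ Unc R a.1 b.1 := fun h1 h2 => h2 c.1 h1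
    have e1 : w b.1 * w a.1 * w c.1 = w a.1 * w b.1 * w c.1 := by ring
    have e2 : w c.1 * w a.1 * w b.1 = w a.1 * w b.1 * w c.1 := by ring
    rw [e1, e2]
    unfold aug
    by_cases hr : R a.1 b.1 c.1
    · have q1 := hd1 hr
      have q2 := hd2 hr
      have q3 := hd3 hr
      by_cases ha : S a.1 <;> by_cases hb : S b.1 <;> by_cases hc : S c.1 <;>
        simp only [ha, hb, hc, not_true_eq_false, not_false_eq_true, true_and, and_true,
          false_and, and_false, or_false, false_or, and_self, if_false, add_zero, zero_add, hr,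
          q1, q2, q3, if_true]
    · by_cases ha : S a.1 <;> by_cases hb : S b.1 <;> by_cases hc : S c.1 <;>
        simp only [ha, hb, hc, not_true_eq_false, not_false_eq_true, true_and, and_true,
          false_and, and_false, or_false, false_or, and_self, if_false, add_zero, zero_add, hr,
          if_true]
  have hsum : ∑ a : V × Fin 3, ∑ b : V × Fin 3, ∑ c : V × Fin 3,
      (if aug R S a b c then w a.1 * w b.1 * w c.1 else 0) =
      27 * ∑ a, ∑ b, ∑ c, (if (¬ (S a ∧ S b) ∧ ¬ (S a ∧ S c) ∧ ¬ (S b ∧ S c) ∧ R a b c) then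
        w a * w b * w c else 0) +
      27 * (3 * ((∑ v, if S v then w v else 0) *
        ∑ b, ∑ c, (if (¬ S b ∧ ¬ S c ∧ Unc R b c) then w b * w c else 0))) +
      15 * (∑ v, if S v then w v else 0) ^ 3 := by
    simp only [hsplit, sum_add_distrib]
    rw [sum27 (fun a b c => (if (¬ (S a ∧ S b) ∧ ¬ (S a ∧ S c) ∧ ¬ (S b ∧ S c) ∧ R a b c) then
        w a * w b * w c else 0)),
      sum27 (fun a b c => (if (S a ∧ ¬ S b ∧ ¬ S c ∧ Unc R b c) then w a * w b * w c else 0)),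
      sum27 (fun a b c => (if (S b ∧ ¬ S a ∧ ¬ S c ∧ Unc R a c) then w b * w a * w c else 0)),
      sum27 (fun a b c => (if (S c ∧ ¬ S a ∧ ¬ S b ∧ Unc R a b) then w c * w a * w b else 0)),
      sum_pat S w, sum_unc (Unc R) S w]
    have e1 : ∑ a, ∑ b, ∑ c, (if (S b ∧ ¬ S a ∧ ¬ S c ∧ Unc R a c) then w b * w a * w c else 0) =
        (∑ v, if S v then w v else 0) *
        ∑ b, ∑ c, (if (¬ S b ∧ ¬ S c ∧ Unc R b c) then w b * w c else 0) := by
      rw [sum_comm]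
      exact sum_unc (Unc R) S w
    have e2 : ∑ a, ∑ b, ∑ c, (if (S c ∧ ¬ S a ∧ ¬ S b ∧ Unc R a b) then w c * w a * w b else 0) =
        (∑ v, if S v then w v else 0) *
        ∑ b, ∑ c, (if (¬ S b ∧ ¬ S c ∧ Unc R b c) then w b * w c else 0) := by
      rw [← sum_unc (Unc R) S w]
      have : ∀ a, ∑ b, ∑ c, (if (S c ∧ ¬ S a ∧ ¬ S b ∧ Unc R a b) then w c * w a * w b else 0) =
          ∑ c, ∑ b, (if (S c ∧ ¬ S a ∧ ¬ S b ∧ Unc R a b) then w c * w a * w b else 0) :=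
        fun a => sum_comm
      simp only [this]
      rw [sum_comm]
    rw [e1, e2]
    ring
  rw [hsum] at h
  have h9 : (3 * ∑ v, w v) ^ 3 = 27 * (∑ v, w v) ^ 3 := by ring
  rw [h9] at h
  linarith

end
end Pool.Agent.X141.K4
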