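import Pool.Agent.H122R2.N6.Count


/-! Weighted form of an upper bound for the number of ordered edges of `K_4^3`-free symmetric
relations. -/

set_option autoImplicit false
open Finset Filter
open scoped Classical Topology

namespace Pool.Agent.X141.K4

/-- the bound of the starting library, as a proposition -/
def Bd : Prop := ∀ (V : Type) [Fintype V] (E : V → V → V → ℕ), Pool.Agent.H122R2.N6.Sy E →
  Pool.Agent.H122R2.N6.NoK4 E →
  100000 * ∑ a, ∑ b, ∑ c, (E a b c : ℤ) ≤ 55756 * (Fintype.card V : ℤ) ^ 3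

/-- symmetric ternary relation without a complete quadruple -/
structure Good {V : Type} (E : V → V → V → Prop) : Prop where
  s1 : ∀ a b c, E a b c → E b a c
  s2 : ∀ a b c, E a b c → E a c b
  k4 : ∀ a b c d, E a b c → E a b d → E a c d → E b c d → False

theorem bd_rel (hB : Bd) {V : Type} [Fintype V] {E : V → V → V → Prop} (hE : Good E) :
    100000 * ∑ a, ∑ b, ∑ c, (if E a b c then (1 : ℝ) else 0) ≤ 55756 * (Fintype.card V : ℝ) ^ 3 := by
  have h := hB V (fun a b c => if E a b c then 1 else 0) ?_ ?_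
  ·
    have h' : ((100000 * ∑ a, ∑ b, ∑ c, (((if E a b c then 1 else 0 : ℕ)) : ℤ) : ℤ) : ℝ) ≤
        ((55756 * (Fintype.card V : ℤ) ^ 3 : ℤ) : ℝ) := by exact_mod_cast h
    push_cast at h'
    exact h'
  · constructor
    · intro x y z
      unfold Pool.Agent.H122R2.N6.Bt
      split_ifs
      · right; rfl
      · left; rfl
    · intro x y z
      by_cases h : E x y z
      · rw [if_pos h, if_pos (hE.s1 _ _ _ h)]
      · rw [if_neg h, if_neg fun h' => h (hE.s1 _ _ _ h')]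
    · intro x y z
      by_cases h : E x y z
      · rw [if_pos h, if_pos (hE.s2 _ _ _ h)]
      · rw [if_neg h, if_neg fun h' => h (hE.s2 _ _ _ h')]
  · intro a b c d
    by_contra hcon
    rw [Bool.not_eq_false] at hcon
    have h4 := Nat.eq_of_beq_eq_true hcon
    simp only [Nat.add_eq] at h4
    have h1 : E a b c := by
      by_contra hn
      rw [if_neg hn] at h4
      split_ifs at h4 <;> omega
    have h2 : E a b d := by
      by_contra hn
      rw [if_neg hn] at h4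
      split_ifs at h4 <;> omega
    have h3 : E a c d := by
      by_contra hn
      rw [if_neg hn] at h4
      split_ifs at h4 <;> omega
    have h5 : E b c d := by
      by_contra hn
      rw [if_neg hn] at h4
      split_ifs at h4 <;> omega
    exact hE.k4 a b c d h1 h2 h3 h5

theorem sum_sigma {V : Type} [Fintype V] (m : V → ℕ) (f : V → ℝ) :
    ∑ a : (Σ v : V, Fin (m v)), f a.1 = ∑ v, (m v : ℝ) * f v := by
  rw [Fintype.sum_sigma]
  refine sum_congr rfl fun v _ => ?_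
  simp

/-- the bound for integer weights -/
theorem bd_int (hB : Bd) {V : Type} [Fintype V] {E : V → V → V → Prop} (hE : Good E)
    (m : V → ℕ) :
    100000 * ∑ a, ∑ b, ∑ c, (if E a b c then (m a : ℝ) * m b * m c else 0) ≤
      55756 * (∑ v, (m v : ℝ)) ^ 3 := by
  have hG : Good (V := Σ v : V, Fin (m v)) (fun a b c => E a.1 b.1 c.1) :=
    ⟨fun a b c h => hE.s1 _ _ _ h, fun a b c h => hE.s2 _ _ _ h,
      fun a b c d h1 h2 h3 h4 => hE.k4 _ _ _ _ h1 h2 h3 h4⟩
  have h := bd_rel hB hG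
  have hc : (Fintype.card (Σ v : V, Fin (m v)) : ℝ) = ∑ v, (m v : ℝ) := by
    rw [Fintype.card_sigma]
    simp
  rw [hc] at h
  refine le_trans (le_of_eq ?_) h
  congr 1
  rw [sum_sigma m (fun a => ∑ b : (Σ v : V, Fin (m v)), ∑ c : (Σ v : V, Fin (m v)),
    (if E a b.1 c.1 then (1 : ℝ) else 0))]
  refine sum_congr rfl fun a _ => ?_
  rw [sum_sigma m (fun b => ∑ c : (Σ v : V, Fin (m v)), (if E a b c.1 then (1 : ℝ) else 0)),
    mul_sum]
  refine sum_congr rfl fun b _ => ?_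
  rw [sum_sigma m (fun c => (if E a b c then (1 : ℝ) else 0)), mul_sum, mul_sum]
  refine sum_congr rfl fun c _ => ?_
  split_ifs <;> ring

/-- **the bound for real weights** -/
theorem bd_real (hB : Bd) {V : Type} [Fintype V] {E : V → V → V → Prop} (hE : Good E)
    (w : V → ℝ) (hw : ∀ v, 0 ≤ w v) :
    100000 * ∑ a, ∑ b, ∑ c, (if E a b c then w a * w b * w c else 0) ≤
      55756 * (∑ v, w v) ^ 3 := by
  have ht : ∀ v, Tendsto (fun N : ℕ => ((⌊w v * N⌋₊ : ℕ) : ℝ) / (N : ℝ)) atTop (𝓝 (w v)) :=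
    fun v => (tendsto_nat_floor_mul_div_atTop (hw v)).comp tendsto_natCast_atTop_atTop
  have hL : Tendsto (fun N : ℕ => 100000 * ∑ a, ∑ b, ∑ c, (if E a b c then
      (((⌊w a * N⌋₊ : ℕ) : ℝ) / (N : ℝ)) * (((⌊w b * N⌋₊ : ℕ) : ℝ) / (N : ℝ)) *
        (((⌊w c * N⌋₊ : ℕ) : ℝ) / (N : ℝ)) else 0)) atTop
      (𝓝 (100000 * ∑ a, ∑ b, ∑ c, (if E a b c then w a * w b * w c else 0))) := by
    refine Tendsto.const_mul _ (tendsto_finsetSum _ fun a _ => tendsto_finsetSum _ fun b _ =>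
      tendsto_finsetSum _ fun c _ => ?_)
    by_cases h : E a b c
    · simp only [if_pos h]
      exact ((ht a).mul (ht b)).mul (ht c)
    · simp only [if_neg h]
      exact tendsto_const_nhds
  have hR : Tendsto (fun N : ℕ => 55756 * (∑ v, ((⌊w v * N⌋₊ : ℕ) : ℝ) / (N : ℝ)) ^ 3) atTop
      (𝓝 (55756 * (∑ v, w v) ^ 3)) :=
    Tendsto.const_mul _ ((tendsto_finsetSum _ fun a _ => ht a).pow 3)
  refine le_of_tendsto_of_tendsto hL hR ?_
  filter_upwards [eventually_gt_atTop 0] with N hN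
  have hN' : (0 : ℝ) < N := by exact_mod_cast hN
  have h := bd_int hB hE (fun v => ⌊w v * N⌋₊)
  have e1 : ∑ a, ∑ b, ∑ c, (if E a b c then
      (((⌊w a * N⌋₊ : ℕ) : ℝ) / (N : ℝ)) * (((⌊w b * N⌋₊ : ℕ) : ℝ) / (N : ℝ)) *
        (((⌊w c * N⌋₊ : ℕ) : ℝ) / (N : ℝ)) else 0) =
      (∑ a, ∑ b, ∑ c, (if E a b c then
      ((⌊w a * N⌋₊ : ℕ) : ℝ) * ((⌊w b * N⌋₊ : ℕ) : ℝ) *
        ((⌊w c * N⌋₊ : ℕ) : ℝ) else 0)) / (N : ℝ) ^ 3 := by
    rw [sum_div]
    refine sum_congr rfl fun a _ => ?_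
    rw [sum_div]
    refine sum_congr rfl fun b _ => ?_
    rw [sum_div]
    refine sum_congr rfl fun c _ => ?_
    split_ifs
    · field_simp
    · simp
  have e2 : ∑ v, ((⌊w v * N⌋₊ : ℕ) : ℝ) / (N : ℝ) = (∑ v, ((⌊w v * N⌋₊ : ℕ) : ℝ)) / (N : ℝ) := by
    rw [sum_div]
  rw [e1, e2, div_pow, ← mul_div_assoc, ← mul_div_assoc]
  exact div_le_div_of_nonneg_right h (by positivity)

end Pool.Agent.X141.K4
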