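import Pool.Agent.Y435.T7.Final
import Pool.Agent.X141.K4.W

/-! The bound of the starting library. -/

set_option autoImplicit false

namespace Pool.Agent.X141.K4

theorem bd : Bd := fun _ _ _ hE hK => Pool.Agent.Y435.T7.main_edges hE hK

end Pool.Agent.X141.K4
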