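import Pool.Agent.X141.K4.Aug

/-! `K_4^3`-free 3-graphs whose vertices can be divided into few classes which meet each edge in at
most one vertex. -/

set_option autoImplicit false
open Finset Filter
open scoped Classical Topology

namespace Pool.Agent.X141.K4

section
variable {V : Type} [Fintype V] {k : ℕ}

/-- the weight of a class -/
noncomputable def cw (κ : V → Fin k) (w : V → ℝ) (i : Fin k) : ℝ := ∑ v, if κ v = i then w v else 0

theorem cw_nonneg (κ : V → Fin k) {w : V → ℝ} (hw : ∀ v, 0 ≤ w v) (i : Fin k) : 0 ≤ cw κ w i :=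
  sum_nonneg fun v _ => by split_ifs <;> [exact hw v; exact le_rfl]

theorem cw_sum (κ : V → Fin k) (w : V → ℝ) : ∑ i, cw κ w i = ∑ v, w v := by
  unfold cw
  rw [sum_comm]
  refine sum_congr rfl fun v _ => ?_
  simp

theorem cw_sq (κ : V → Fin k) (w : V → ℝ) (i0 : Fin k) :
    ∑ b, ∑ c, (if (κ b ≠ i0 ∧ κ c = κ b) then w b * w c else 0) =
      ∑ i ∈ univ.erase i0, cw κ w i ^ 2 := by
  have h1 : ∀ i, cw κ w i ^ 2 = ∑ b, ∑ c, (if (κ b = i ∧ κ c = i) then w b * w c else 0) := by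
    intro i
    unfold cw
    rw [sq, sum_mul]
    refine sum_congr rfl fun b _ => ?_
    rw [mul_sum]
    refine sum_congr rfl fun c _ => ?_
    by_cases hb : κ b = i <;> by_cases hc : κ c = i <;> simp [hb, hc]
  simp only [h1]
  symm
  rw [sum_comm]
  refine sum_congr rfl fun b _ => ?_
  rw [sum_comm]
  refine sum_congr rfl fun c _ => ?_
  by_cases hb : κ b = i0
  · have h0 : ∑ i ∈ univ.erase i0, (if (κ b = i ∧ κ c = i) then w b * w c else 0) = 0 := by
      refine sum_eq_zero fun i hi => ?_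
      rw [if_neg]
      rintro ⟨h, -⟩
      exact (mem_erase.mp hi).1 (h.symm.trans hb)
    rw [h0, if_neg fun h => h.1 hb]
  · rw [sum_eq_single (κ b)]
    · by_cases hc : κ c = κ b <;> simp [hb, hc]
    · intro i _ hne
      rw [if_neg]
      rintro ⟨h, -⟩
      exact hne h.symm
    · intro h
      exact absurd (mem_erase.mpr ⟨hb, mem_univ _⟩) h

theorem classes_raw (hB : Bd) {R : V → V → V → Prop} (hR : Good R) (κ : V → Fin k)
    (hκ : ∀ a b c, R a b c → κ a ≠ κ b) (w : V → ℝ) (hw : ∀ v, 0 ≤ w v) (i0 : Fin k) :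
    ∑ a, ∑ b, ∑ c, (if R a b c then w a * w b * w c else 0) +
      3 * cw κ w i0 * ∑ i ∈ univ.erase i0, cw κ w i ^ 2 + 5 / 9 * cw κ w i0 ^ 3 ≤
      0.55756 * (∑ v, w v) ^ 3 := by
  obtain ⟨S, hS⟩ : ∃ S : V → Prop, ∀ v, S v ↔ κ v = i0 := ⟨_, fun _ => Iff.rfl⟩
  have h := reserve hB hR S w hw
  have e1 : ∀ a b c, (if (¬ (S a ∧ S b) ∧ ¬ (S a ∧ S c) ∧
      ¬ (S b ∧ S c) ∧ R a b c) then w a * w b * w c else 0) =
      (if R a b c then w a * w b * w c else 0) := by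
    intro a b c
    by_cases hr : R a b c
    · have h1 := hκ _ _ _ hr
      have h2 := hκ _ _ _ (hR.s2 _ _ _ hr)
      have h3 := hκ _ _ _ (hR.s2 _ _ _ (hR.s1 _ _ _ hr))
      rw [if_pos hr, if_pos]
      simp only [hS]
      exact ⟨fun h => h1 (h.1.trans h.2.symm), fun h => h2 (h.1.trans h.2.symm),
        fun h => h3 (h.1.trans h.2.symm), hr⟩
    · rw [if_neg hr, if_neg fun h => hr h.2.2.2]
  simp only [e1] at h
  have e2 : ∑ i ∈ univ.erase i0, cw κ w i ^ 2 ≤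
      ∑ b, ∑ c, (if (¬ S b ∧ ¬ S c ∧ Unc R b c) then w b * w c else 0) := by
    rw [← cw_sq]
    refine sum_le_sum fun b _ => sum_le_sum fun c _ => ?_
    by_cases hp : κ b ≠ i0 ∧ κ c = κ b
    · rw [if_pos hp, if_pos]
      simp only [hS]
      refine ⟨hp.1, fun h => hp.1 (hp.2 ▸ h), fun z hz => hκ _ _ _ hz hp.2.symm⟩
    · rw [if_neg hp]
      split_ifs
      · exact mul_nonneg (hw b) (hw c)
      · exact le_rfl
  have e3 := mul_le_mul_of_nonneg_left e2 (mul_nonneg (by norm_num : (0:ℝ) ≤ 3) (cw_nonneg κ hw i0))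
  have e4 : (∑ v, if S v then w v else 0) = cw κ w i0 := by
    unfold cw
    refine sum_congr rfl fun v _ => ?_
    by_cases hv : κ v = i0
    · rw [if_pos hv, if_pos ((hS v).2 hv)]
    · rw [if_neg hv, if_neg fun h => hv ((hS v).1 h)]
  rw [e4] at h
  linarith

theorem poly_ineq {K M W : ℝ} (hK : 3 ≤ K) (h1 : W ≤ K * M) :
    (27 * K - 22) * (K - 1) * W ^ 3 ≤ 27 * K ^ 3 * M * (W - M) ^ 2 + 5 * K ^ 3 * (K - 1) * M ^ 3 := by
  -- `t = K M - W ≥ 0`, `a = K - 1 ≥ 2`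
  obtain ⟨a, ha⟩ : ∃ a, a = K - 1 := ⟨_, rfl⟩
  obtain ⟨t, ht⟩ : ∃ t, t = K * M - W := ⟨_, rfl⟩
  have ha2 : 2 ≤ a := by linarith
  have ht0 : 0 ≤ t := by linarith
  have hK0 : K ≠ 0 := by linarith
  have hM : M = (W + t) / K := by rw [ht]; field_simp; ring
  have e : 27 * K ^ 3 * M * (W - M) ^ 2 + 5 * K ^ 3 * (K - 1) * M ^ 3 =
      27 * (W + t) * (K * W - (W + t)) ^ 2 + 5 * (K - 1) * (W + t) ^ 3 := by
    rw [hM]
    field_simp
  rw [e]
  have hKa : K = a + 1 := by linarith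
  have e2 : 27 * (W + t) * (K * W - (W + t)) ^ 2 + 5 * (K - 1) * (W + t) ^ 3 -
      (27 * K - 22) * (K - 1) * W ^ 3 =
      t * ((27 * a ^ 2 - 39 * a) * W ^ 2 + (27 - 39 * a) * W * t + (27 + 5 * a) * t ^ 2) := by
    rw [hKa]
    ring
  have hG : 0 ≤ (27 * a ^ 2 - 39 * a) * W ^ 2 + (27 - 39 * a) * W * t + (27 + 5 * a) * t ^ 2 := by
    have hd : 0 ≤ 540 * a ^ 3 + 615 * a ^ 2 - 2106 * a - 729 := by nlinarith [sq_nonneg (a - 2)]
    have h4 : 4 * (27 + 5 * a) * ((27 * a ^ 2 - 39 * a) * W ^ 2 + (27 - 39 * a) * W * t +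
        (27 + 5 * a) * t ^ 2) = (2 * (27 + 5 * a) * t + (27 - 39 * a) * W) ^ 2 +
        (540 * a ^ 3 + 615 * a ^ 2 - 2106 * a - 729) * W ^ 2 := by ring
    have h5 : 0 ≤ 4 * (27 + 5 * a) * ((27 * a ^ 2 - 39 * a) * W ^ 2 + (27 - 39 * a) * W * t +
        (27 + 5 * a) * t ^ 2) := by
      rw [h4]
      positivity
    exact nonneg_of_mul_nonneg_right h5 (by linarith)
  have := mul_nonneg ht0 hG
  linarith

/-- **Few classes, ordered form.** -/
theorem classes_ord (hB : Bd) {R : V → V → V → Prop} (hR : Good R) (hk : 3 ≤ k) (κ : V → Fin k)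
    (hκ : ∀ a b c, R a b c → κ a ≠ κ b) (w : V → ℝ) (hw : ∀ v, 0 ≤ w v) :
    ∑ a, ∑ b, ∑ c, (if R a b c then w a * w b * w c else 0) ≤
      (0.55756 - (27 * k - 22) / (9 * k ^ 3)) * (∑ v, w v) ^ 3 := by
  have hne : (univ : Finset (Fin k)).Nonempty := ⟨⟨0, by omega⟩, mem_univ _⟩
  obtain ⟨i0, -, hi0⟩ := exists_max_image univ (cw κ w) hne
  have h := classes_raw hB hR κ hκ w hw i0
  set M := cw κ w i0 with hM
  set W := ∑ v, w v with hWd
  have hM0 : 0 ≤ M := cw_nonneg κ hw i0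
  have hK : (3 : ℝ) ≤ k := by exact_mod_cast hk
  have hWM : W ≤ k * M := by
    rw [hWd, ← cw_sum κ w]
    calc ∑ i, cw κ w i ≤ ∑ _i : Fin k, M := sum_le_sum fun i hi => hi0 i hi
      _ = k * M := by simp
  have hcs : (W - M) ^ 2 ≤ (k - 1) * ∑ i ∈ univ.erase i0, cw κ w i ^ 2 := by
    have h1 : W - M = ∑ i ∈ univ.erase i0, cw κ w i := by
      have h2 := add_sum_erase univ (cw κ w) (mem_univ i0)
      rw [cw_sum κ w] at h2
      linarith
    rw [h1]
    have h3 := sq_sum_le_card_mul_sum_sq (s := univ.erase i0) (f := cw κ w)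
    have h4 : (((univ : Finset (Fin k)).erase i0).card : ℝ) = k - 1 := by
      rw [card_erase_of_mem (mem_univ _), card_univ, Fintype.card_fin, Nat.cast_sub (by omega)]
      norm_num
    rw [h4] at h3
    exact h3
  have hp := poly_ineq hK hWM
  have hk1 : (0 : ℝ) < k - 1 := by linarith
  have hk3 : (0 : ℝ) < k := by linarith
  -- the gain
  have hgain : (27 * k - 22) / (9 * k ^ 3) * W ^ 3 ≤
      3 * M * ∑ i ∈ univ.erase i0, cw κ w i ^ 2 + 5 / 9 * M ^ 3 := by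
    have h1 : 3 * M * ((W - M) ^ 2 / (k - 1)) ≤ 3 * M * ∑ i ∈ univ.erase i0, cw κ w i ^ 2 := by
      refine mul_le_mul_of_nonneg_left ?_ (by positivity)
      rw [div_le_iff₀ hk1]
      linarith
    have h2 : (27 * (k : ℝ) - 22) / (9 * k ^ 3) * W ^ 3 ≤ 3 * M * ((W - M) ^ 2 / (k - 1)) +
        5 / 9 * M ^ 3 := by
      have e1 : 3 * M * ((W - M) ^ 2 / (k - 1)) + 5 / 9 * M ^ 3 =
          (27 * k ^ 3 * M * (W - M) ^ 2 + 5 * k ^ 3 * (k - 1) * M ^ 3) / (9 * k ^ 3 * (k - 1)) := by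
        field_simp
        ring
      have e2 : (27 * (k : ℝ) - 22) / (9 * k ^ 3) * W ^ 3 =
          ((27 * k - 22) * (k - 1) * W ^ 3) / (9 * k ^ 3 * (k - 1)) := by
        field_simp
      rw [e1, e2]
      exact div_le_div_of_nonneg_right hp (by positivity)
    linarith
  have e : (0.55756 - (27 * (k : ℝ) - 22) / (9 * k ^ 3)) * W ^ 3 =
      0.55756 * W ^ 3 - (27 * (k : ℝ) - 22) / (9 * k ^ 3) * W ^ 3 := by ring
  rw [e]
  linarith

end
end Pool.Agent.X141.K4
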