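import Pool.Agent.X141.K4.Classes

/-! From ordered triples to edges; the bounds for 3-graphs. -/

set_option autoImplicit false
open Finset Filter
open scoped Classical Topology

namespace Pool.Agent.X141.K4

section
variable {V : Type}

/-- the relation of a 3-graph -/
def RH (H : Finset (Finset V)) (a b c : V) : Prop := ({a, b, c} : Finset V) ∈ H

/-- no four vertices span all four triples -/
def Free (H : Finset (Finset V)) : Prop :=
  ∀ S : Finset V, S.card = 4 → ∃ s ⊆ S, s.card = 3 ∧ s ∉ H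

theorem rh_good {H : Finset (Finset V)} (h3 : ∀ e ∈ H, e.card = 3) (hF : Free H) :
    Good (RH H) := by
  have hN := Pool.Agent.H122R2.N6.tri_noK4 h3 hF
  refine ⟨fun a b c h => ?_, fun a b c h => ?_, fun a b c d h1 h2 h3 h4 => ?_⟩
  · unfold RH at h ⊢
    rwa [insert_comm]
  · unfold RH at h ⊢
    have : ({a, c, b} : Finset V) = {a, b, c} := by ext t; simp; tauto
    rwa [this]
  · have := hN a b c d
    have e : ∀ x y z, RH H x y z → Pool.Agent.H122R2.N6.tri H x y z = 1 := fun x y z h => if_pos h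
    rw [e _ _ _ h1, e _ _ _ h2, e _ _ _ h3, e _ _ _ h4] at this
    exact absurd this (by decide)

variable [Fintype V]

theorem ord_ge {G : Finset (Finset V)} (h3 : ∀ e ∈ G, e.card = 3) (w : V → ℝ)
    (hw : ∀ v, 0 ≤ w v) :
    6 * ∑ e ∈ G, ∏ v ∈ e, w v ≤
      ∑ a, ∑ b, ∑ c, (if RH G a b c then w a * w b * w c else 0) := by
  set T : Finset (V × V × V) := univ.filter fun t => RH G t.1 t.2.1 t.2.2 with hT
  set f : V × V × V → ℝ := fun t => w t.1 * w t.2.1 * w t.2.2 with hf
  have hf0 : ∀ t, 0 ≤ f t := fun t => mul_nonneg (mul_nonneg (hw _) (hw _)) (hw _)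
  have e : ∑ a, ∑ b, ∑ c, (if RH G a b c then w a * w b * w c else 0) = ∑ t ∈ T, f t := by
    rw [hT, sum_filter, Fintype.sum_prod_type]
    refine sum_congr rfl fun a _ => ?_
    rw [Fintype.sum_prod_type]
  have hfw := sum_fiberwise_of_maps_to (s := T) (t := G)
    (g := fun t : V × V × V => ({t.1, t.2.1, t.2.2} : Finset V))
    (fun t ht => (mem_filter.mp ht).2) f
  rw [e, ← hfw, mul_sum]
  refine sum_le_sum fun s hs => ?_
  obtain ⟨x, y, z, hxy, hxz, hyz, rfl⟩ := Finset.card_eq_three.mp (h3 s hs)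
  have hsub : ({(x, y, z), (x, z, y), (y, x, z), (y, z, x), (z, x, y), (z, y, x)} :
      Finset (V × V × V)) ⊆
      T.filter (fun t : V × V × V => ({t.1, t.2.1, t.2.2} : Finset V) = {x, y, z}) := by
    have key : ∀ u v w : V, ({u, v, w} : Finset V) = {x, y, z} →
        (u, v, w) ∈ T.filter (fun t : V × V × V => ({t.1, t.2.1, t.2.2} : Finset V) = {x, y, z}) := by
      intro u v w h
      have hm : ({u, v, w} : Finset V) ∈ G := by rw [h]; exact hs
      rw [mem_filter, hT, mem_filter]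
      exact ⟨⟨mem_univ _, hm⟩, h⟩
    intro t ht
    simp only [mem_insert, mem_singleton] at ht
    rcases ht with h | h | h | h | h | h <;> rw [h]
    · exact key x y z rfl
    · exact key x z y (by rw [pair_comm z y])
    · exact key y x z (insert_comm _ _ _)
    · exact key y z x (by rw [pair_comm z x, insert_comm])
    · exact key z x y (by rw [insert_comm z x, pair_comm z y])
    · exact key z y x (by rw [pair_comm y x, insert_comm z x, pair_comm z y])
  refine le_trans (le_of_eq ?_) (sum_le_sum_of_subset_of_nonneg hsub fun t _ _ => hf0 t)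
  rw [sum_insert, sum_insert, sum_insert, sum_insert, sum_insert, sum_singleton, prod_insert,
    prod_insert, prod_singleton]
  · simp only [hf]
    ring
  all_goals simp [hxy, hxz, hyz, hxy.symm, hxz.symm, hyz.symm]

/-- a colouring of the vertices such that the vertices of each edge have different colours -/
def Strong {k : ℕ} (H : Finset (Finset V)) (κ : V → Fin k) : Prop :=
  ∀ e ∈ H, ∀ x ∈ e, ∀ y ∈ e, κ x = κ y → x = y

theorem strong_rel {k : ℕ} {H : Finset (Finset V)} (h3 : ∀ e ∈ H, e.card = 3) {κ : V → Fin k}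
    (hκ : Strong H κ) (a b c : V) (h : RH H a b c) : κ a ≠ κ b := by
  intro hab
  have h1 := (Pool.Agent.H122R2.N6.distinct_of_mem h3 h).1
  exact h1 (hκ _ h a (by simp) b (by simp) hab)

/-- **Few classes.** -/
theorem classes (hB : Bd) {H : Finset (Finset V)} (h3 : ∀ e ∈ H, e.card = 3) (hF : Free H)
    {k : ℕ} (hk : 3 ≤ k) (κ : V → Fin k) (hκ : Strong H κ) (w : V → ℝ) (hw : ∀ v, 0 ≤ w v) :
    6 * ∑ e ∈ H, ∏ v ∈ e, w v ≤
      (0.55756 - (27 * k - 22) / (9 * k ^ 3)) * (∑ v, w v) ^ 3 :=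
  (ord_ge h3 w hw).trans (classes_ord hB (rh_good h3 hF) hk κ (strong_rel h3 hκ) w hw)

/-- **At most 38 classes: Turán's bound.** -/
theorem classes38 (hB : Bd) {H : Finset (Finset V)} (h3 : ∀ e ∈ H, e.card = 3) (hF : Free H)
    (κ : V → Fin 38) (hκ : Strong H κ) (w : V → ℝ) (hw : ∀ v, 0 ≤ w v) :
    ∑ e ∈ H, ∏ v ∈ e, w v ≤ 5 / 54 * (∑ v, w v) ^ 3 := by
  have h := classes hB h3 hF (by norm_num) κ hκ w hw
  have hW0 : 0 ≤ (∑ v, w v) ^ 3 := pow_nonneg (sum_nonneg fun v _ => hw v) 3
  have e : (0.55756 - (27 * ((38 : ℕ) : ℝ) - 22) / (9 * ((38 : ℕ) : ℝ) ^ 3)) ≤ 5 / 9 := by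
    norm_num
  have h2 := mul_le_mul_of_nonneg_right e hW0
  linarith

end
end Pool.Agent.X141.K4
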